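import Pool.Agent.N671.DA.Win
import Pool.Agent.Results.MP_ee77ae_nt.GenericDiagonalExact

/-!
# Values of generic diagonal forms in `k + 1` prime variables near functions of the denominators of good approximations

Let `k ≥ 2`. For almost every `(a_1, ..., a_{k+1}) ∈ (0, ∞) ^ (k+1)` there is a number `s < 1` with the following property. We
consider the natural numbers `q` with `‖q α_j - β_j‖ ≤ c q^(-τ)` for all `j ≤ m`, `‖x‖` the distance to the nearest integer; for
`β = 0`, `c = 1`, `τ = 1 / m` these include the denominators of all best simultaneous approximations of `α` (the denominators of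
the convergents for `m = 1`). They form a very sparse sequence, with gaps growing exponentially for almost all `α` if
`τ = 1 / m`. Let `G` be a function with steps bounded below by a positive constant and growth at most `v^d`, for example
`b v^d`. For all `α` in `ℝ^m` outside a set of Hausdorff dimension at most `(m + d s + κ) / (1 + τ)`, and all `c`, for all but
finitely many such `q` EVERY positive integer `n` with `|n - G q| ≤ q^κ` is of the form
`⌊a_1 p_1 ^ k⌋ + ... + ⌊a_{k+1} p_{k+1} ^ k⌋` with primes `p_i`. For `τ = 1 / m` the bound is less than `m` if `d s + κ < 1`;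
and so the statement holds for almost all `α`.

Proof. The form misses at most `N ^ (1 - σ)` integers up to `N` (`GenericDiagonalExact`), so the `q` such that some missed
integer is near `G q` form a set with `O(X^(d s + κ + ε))` elements up to `X`; and the `α` with `‖q α_j - β_j‖ ≤ c q^(-τ)` for
all `j` and infinitely many `q` of such a set are covered by few small cubes (tool `N671/DA`).
-/

set_option autoImplicit false

namespace Pool.Agent.N99.Shelf.SimultaneousApproximations

open MeasureTheory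
open Pool.Agent.N671.DA (Solves Expanding expanding_pow approx_good_nat)
open Pool.Agent.Results.MP_ee77ae_nt.GenericDiagonalExact (IsPrimeValue)

/-- the exceptional set, in the form needed by the tool -/
lemma count {P : ℕ → Prop} {σ : ℝ} (_hσ : 0 < σ) {N0 : ℕ}
    (h : ∀ N : ℕ, N0 ≤ N → ({m : ℕ | m ≤ N ∧ ¬ P m}.ncard : ℝ) ≤ (N : ℝ) ^ (1 - σ)) (ε : ℝ) (hε : 0 < ε) :
    ∃ C : ℝ, ∀ X : ℕ, 1 ≤ X →
      ({t : ℕ | 1 ≤ t ∧ t ≤ X ∧ True ∧ ¬ P t}.ncard : ℝ) ≤ C * (X : ℝ) ^ ((1 - min σ 1) + ε) := by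
  refine ⟨N0 + 1, fun X hX => ?_⟩
  have hX1 : (1 : ℝ) ≤ X := by exact_mod_cast hX
  have hs : 0 ≤ 1 - min σ 1 := by linarith [min_le_right σ 1]
  have hp : (1 : ℝ) ≤ (X : ℝ) ^ ((1 - min σ 1) + ε) := Real.one_le_rpow hX1 (by linarith)
  have hN0 : (0 : ℝ) ≤ N0 := Nat.cast_nonneg _
  rcases le_total N0 X with h0 | h0
  · have hfin : {m : ℕ | m ≤ X ∧ ¬ P m}.Finite := (Set.finite_Iic X).subset fun m hm => hm.1
    have hsub : {t : ℕ | 1 ≤ t ∧ t ≤ X ∧ True ∧ ¬ P t} ⊆ {m : ℕ | m ≤ X ∧ ¬ P m} :=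
      fun t ht => ⟨ht.2.1, ht.2.2.2⟩
    have h1 : ({t : ℕ | 1 ≤ t ∧ t ≤ X ∧ True ∧ ¬ P t}.ncard : ℝ) ≤ ({m : ℕ | m ≤ X ∧ ¬ P m}.ncard : ℝ) := by
      exact_mod_cast Set.ncard_le_ncard hsub hfin
    have h2 : (X : ℝ) ^ (1 - σ) ≤ (X : ℝ) ^ ((1 - min σ 1) + ε) :=
      Real.rpow_le_rpow_of_exponent_le hX1 (by linarith [min_le_left σ 1])
    have h3 := (h1.trans (h X h0)).trans h2
    nlinarith
  · have hsub : {t : ℕ | 1 ≤ t ∧ t ≤ X ∧ True ∧ ¬ P t} ⊆ (Finset.Icc 1 X : Set ℕ) := by
      intro t ht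
      rw [Finset.mem_coe, Finset.mem_Icc]
      exact ⟨ht.1, ht.2.1⟩
    have h1 := Set.ncard_le_ncard hsub (Finset.finite_toSet _)
    rw [Set.ncard_coe_finset, Nat.card_Icc] at h1
    have h2 : ({t : ℕ | 1 ≤ t ∧ t ≤ X ∧ True ∧ ¬ P t}.ncard : ℝ) ≤ N0 := by
      exact_mod_cast (show _ ≤ N0 by omega)
    nlinarith

/-- **Generic diagonal forms near the denominators of good approximations.** Let `k ≥ 2`. For almost every `a ∈ ℝ ^ (k+1)` with
positive coordinates there is `0 ≤ s < 1` such that: let `G` have steps `≥ a₀ > 0` and growth at most `v ^ d`, `0 ≤ κ ≤ 1`,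
`β` in `ℝ^m` and `τ > 0`. For all `α` in `ℝ^m` outside a set of Hausdorff dimension at most `(m + d s + κ) / (1 + τ)` and all
`c`, for all large `q` with `‖q α_j - β_j‖ ≤ c q^(-τ)` for all `j`, EVERY integer `n ≥ 1` with `|n - G q| ≤ q^κ` is of the form
`⌊a_1 p_1 ^ k⌋ + ... + ⌊a_{k+1} p_{k+1} ^ k⌋` with primes `p_i`. The functions `b v ^ d` with `b > 0`, `d ≥ 1` are examples of
`G`. -/
theorem result (k : ℕ) (hk : 2 ≤ k) :
    (∀ᵐ a : Fin (k + 1) → ℝ, (∀ i, 0 < a i) → ∃ s : ℝ, 0 ≤ s ∧ s < 1 ∧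
      ∀ (G : ℕ → ℝ) (d : ℝ), Expanding G d → ∀ κ : ℝ, 0 ≤ κ → κ ≤ 1 →
      ∀ (m : ℕ) (β : Fin m → ℝ) (τ : ℝ), 0 < τ →
      ∃ E : Set (Fin m → ℝ), dimH E ≤ ENNReal.ofReal ((m + (d * s + κ)) / (1 + τ)) ∧
        ∀ α, α ∉ E → ∀ c : ℝ, ∃ Q : ℕ, ∀ q : ℕ, Q ≤ q → Solves α β q (c * (q : ℝ) ^ (-τ)) →
          ∀ n : ℕ, 1 ≤ n → |(n : ℝ) - G q| ≤ (q : ℝ) ^ κ → IsPrimeValue k a n) ∧
    ∀ b d : ℝ, 0 < b → 1 ≤ d → Expanding (fun v => b * (v : ℝ) ^ d) d := by
  refine ⟨?_, fun b d hb hd => expanding_pow hb hd⟩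
  filter_upwards [(Pool.Agent.Results.MP_ee77ae_nt.GenericDiagonalExact.result k hk).1] with a ha hpos
  obtain ⟨σ, hσ, N0, hN0⟩ := ha hpos
  refine ⟨1 - min σ 1, by linarith [min_le_right σ 1], by linarith [lt_min hσ one_pos], ?_⟩
  intro G d hG κ hκ hκ1 m β τ hτ
  obtain ⟨E, hE, hE2⟩ := approx_good_nat (fun _ => True) (IsPrimeValue k a) hG (s := 1 - min σ 1) (κ := κ)
    (by linarith [min_le_right σ 1]) hκ hκ1 (fun ε hε => count hσ hN0 ε hε) β hτ
  refine ⟨E, hE, fun α hα c => ?_⟩
  obtain ⟨Q, hQ⟩ := hE2 α hα c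
  exact ⟨Q, fun q hq h1 n hn h2 => hQ q hq h1 n hn trivial h2⟩

end Pool.Agent.N99.Shelf.SimultaneousApproximations

/-
Kept claim (MP_ee77ae_nt.SimultaneousApproximations, helper99; moved here by the exchange rule, 22:04 UTC):

Proves: Let k>=2. For Lebesgue-almost every (a_1,...,a_(k+1)) with all a_i>0 there is 0<=s<1 such that: let G be Expanding of order d, 0<=kappa<=1, beta in R^m, tau>0. For all alpha in R^m outside a set of Hausdorff dimension at most (m+ds+kappa)/(1+tau) and all c, for all large naturals q with ||q alpha_j-beta_j||<=c q^(-tau) for all j<=m, EVERY integer n>=1 with |n-G(q)|<=q^kappa is floor(a_1 p_1^k)+...+floor(a_(k+1) p_(k+1)^k) with primes p_i. Also G(v)=b v^d (b>0, d>=1) is Expanding of order d.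
Definitions: ||x||: distance to the nearest integer (predicate Solves). Expanding G d: d>=1, G(v+1)-G(v)>=a for all v>=1 (some a>0), G(v)<=C v^d (some C). IsPrimeValue k a n: n is such a sum.
Relation: Partial answer to Q1 in the generic model of GenericDiagonalExact (nothing for a_i=1): k+1 prime variables, far below 4k. For tau=1/m the bound is <m if ds+kappa<1, so for almost all alpha ALL integers near G(q) are such sums, q the denominators of the best simultaneous approximations of alpha (convergents if m=1), a sparse sequence not seen by the N^(1-sigma) exceptions of GenericDiagonalExact (helper604), which is used. For tau>=1/m the set of all alpha with infinitely many q has dimension (m+1)/(1+tau) (Jarnik). MultiplicativeValues (helper562) treats values of phi and sigma, ArbitrarySets restricted variables. Engine N671/DA (helper671).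
-/
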